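import Pool.Agent.Helper54.DT.StmtsS

/-!
# Values of formulas from guessed signs (MP_47b99f_lc)
-/

namespace Pool.Agent.Helper4.DCT

open Pool.Agent.Helper54.DT Pool.Agent.Helper54.ETR Pool.Agent.Helper54.Poly

theorem sgh_cases {b : Bool × Bool} {z : Term × Term} {x : ℕ → ℝ} (h : sgh b z x) :
    (b.1 = true ∧ z.1.eval x = z.2.eval x) ∨ (b.1 = false ∧ b.2 = true ∧ z.1.eval x < z.2.eval x)
      ∨ (b.1 = false ∧ b.2 = false ∧ z.2.eval x < z.1.eval x) := by
  obtain ⟨b1, b2⟩ := b
  unfold sgh at h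
  cases b1 <;> cases b2 <;> simp at h <;> simp [h]

theorem bev_iff (w : List Bool) (φ : Form) : ∀ (k : ℕ) (x : ℕ → ℝ),
    (∀ r ∈ recs w φ k, sgh r.2.1 r.2.2 x) → (bev w φ k = true ↔ φ.Holds x) := by
  induction φ with
  | lt s t =>
    intro k x h
    have h1 := sgh_cases (h _ (List.mem_singleton.mpr rfl))
    simp only at h1
    simp only [bev, Form.Holds]
    rcases h1 with ⟨h1, h2⟩ | ⟨h1, h3, h2⟩ | ⟨h1, h3, h2⟩
    · rw [h1]; simp [h2]
    · rw [h1, h3]; simp [h2]
    · rw [h1, h3]; simp [h2.le]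
  | le s t =>
    intro k x h
    have h1 := sgh_cases (h _ (List.mem_singleton.mpr rfl))
    simp only at h1
    simp only [bev, Form.Holds]
    rcases h1 with ⟨h1, h2⟩ | ⟨h1, h3, h2⟩ | ⟨h1, h3, h2⟩
    · rw [h1]; simp [h2]
    · rw [h1, h3]; simp [h2.le]
    · rw [h1, h3]; simp [h2]
  | eq s t =>
    intro k x h
    have h1 := sgh_cases (h _ (List.mem_singleton.mpr rfl))
    simp only at h1
    simp only [bev, Form.Holds]
    rcases h1 with ⟨h1, h2⟩ | ⟨h1, h3, h2⟩ | ⟨h1, h3, h2⟩
    · rw [h1]; simp [h2]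
    · rw [h1]; simp [h2.ne]
    · rw [h1]; simp [h2.ne']
  | ge s t =>
    intro k x h
    have h1 := sgh_cases (h _ (List.mem_singleton.mpr rfl))
    simp only at h1
    simp only [bev, Form.Holds]
    rcases h1 with ⟨h1, h2⟩ | ⟨h1, h3, h2⟩ | ⟨h1, h3, h2⟩
    · rw [h1]; simp [h2]
    · rw [h1, h3]; simp [h2]
    · rw [h1, h3]; simp [h2.le]
  | gt s t =>
    intro k x h
    have h1 := sgh_cases (h _ (List.mem_singleton.mpr rfl))
    simp only at h1
    simp only [bev, Form.Holds]
    rcases h1 with ⟨h1, h2⟩ | ⟨h1, h3, h2⟩ | ⟨h1, h3, h2⟩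
    · rw [h1]; simp [h2]
    · rw [h1, h3]; simp [h2.le]
    · rw [h1, h3]; simp [h2]
  | and p q ihp ihq =>
    intro k x h
    have hp := ihp (q.toks.length + k) x fun r hr => h r (List.mem_append_left _ hr)
    have hq := ihq k x fun r hr => h r (List.mem_append_right _ hr)
    simp only [bev, Form.Holds, Bool.and_eq_true, hp, hq]
  | or p q ihp ihq =>
    intro k x h
    have hp := ihp (q.toks.length + k) x fun r hr => h r (List.mem_append_left _ hr)
    have hq := ihq k x fun r hr => h r (List.mem_append_right _ hr)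
    simp only [bev, Form.Holds, Bool.or_eq_true, hp, hq]
  | not p ihp =>
    intro k x h
    have hp := ihp k x fun r hr => h r hr
    simp only [bev, Form.Holds]
    rw [← hp]
    simp

theorem sgh_dec (z : Term × Term) (x : ℕ → ℝ) :
    ∃ b : Bool × Bool, sgh b z x := by
  rcases lt_trichotomy (z.1.eval x) (z.2.eval x) with h | h | h
  · exact ⟨(false, true), by simpa [sgh] using h⟩
  · exact ⟨(true, true), by simpa [sgh] using h⟩
  · exact ⟨(false, false), by simpa [sgh] using h⟩

theorem exB (φ : Form) : ∀ (k : ℕ) (x : ℕ → ℝ), ∃ B : ℕ → Bool × Bool, ∀ w : List Bool,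
    (∀ j, k ≤ j → j < k + φ.toks.length → sgb w j = B j) →
      ∀ r ∈ recs w φ k, sgh r.2.1 r.2.2 x := by
  have key : ∀ (s t : Term) (k : ℕ) (x : ℕ → ℝ), ∃ B : ℕ → Bool × Bool, ∀ w : List Bool,
      (∀ j, k ≤ j → j < k + (s.toks.length + t.toks.length + 1) → sgb w j = B j) →
      ∀ r ∈ [(max (s.deg ∅) (t.deg ∅), (sgb w (pos s t k), (s, t)))], sgh r.2.1 r.2.2 x := by
    intro s t k x
    obtain ⟨b, hb⟩ := sgh_dec (s, t) x
    refine ⟨fun _ => b, fun w hw r hr => ?_⟩
    rw [List.mem_singleton] at hr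
    rw [hr]
    have := hw (pos s t k) (by unfold pos; omega) (by unfold pos; omega)
    simp only [this]
    exact hb
  have key2 : ∀ (p q : Form) (k : ℕ) (x : ℕ → ℝ), (∀ (k : ℕ) (x : ℕ → ℝ),
      ∃ B : ℕ → Bool × Bool, ∀ w : List Bool,
      (∀ j, k ≤ j → j < k + p.toks.length → sgb w j = B j) →
      ∀ r ∈ recs w p k, sgh r.2.1 r.2.2 x) → (∀ (k : ℕ) (x : ℕ → ℝ),
      ∃ B : ℕ → Bool × Bool, ∀ w : List Bool,
      (∀ j, k ≤ j → j < k + q.toks.length → sgb w j = B j) →
      ∀ r ∈ recs w q k, sgh r.2.1 r.2.2 x) →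
      ∃ B : ℕ → Bool × Bool, ∀ w : List Bool,
      (∀ j, k ≤ j → j < k + (p.toks.length + q.toks.length + 1) → sgb w j = B j) →
      ∀ r ∈ recs w p (q.toks.length + k) ++ recs w q k, sgh r.2.1 r.2.2 x := by
    intro p q k x hp hq
    obtain ⟨Bp, hBp⟩ := hp (q.toks.length + k) x
    obtain ⟨Bq, hBq⟩ := hq k x
    refine ⟨fun j => if j < k + q.toks.length then Bq j else Bp j, fun w hw r hr => ?_⟩
    rw [List.mem_append] at hr
    rcases hr with hr | hr
    · refine hBp w (fun j hj1 hj2 => ?_) r hr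
      have h1 := hw j (by omega) (by omega)
      have h2 : ¬ j < k + q.toks.length := by omega
      simpa only [if_neg h2] using h1
    · refine hBq w (fun j hj1 hj2 => ?_) r hr
      have h1 := hw j (by omega) (by omega)
      have h2 : j < k + q.toks.length := by omega
      simpa only [if_pos h2] using h1
  induction φ with
  | lt s t => simpa [Form.toks, recs] using key s t
  | le s t => simpa [Form.toks, recs] using key s t
  | eq s t => simpa [Form.toks, recs] using key s t
  | ge s t => simpa [Form.toks, recs] using key s t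
  | gt s t => simpa [Form.toks, recs] using key s t
  | and p q ihp ihq =>
    intro k x
    have := key2 p q k x ihp ihq
    simpa only [Form.toks, recs, List.length_cons, List.length_append] using this
  | or p q ihp ihq =>
    intro k x
    have := key2 p q k x ihp ihq
    simpa only [Form.toks, recs, List.length_cons, List.length_append] using this
  | not p ihp =>
    intro k x
    obtain ⟨B, hB⟩ := ihp k x
    refine ⟨B, fun w hw r hr => hB w (fun j h1 h2 => hw j h1 ?_) r hr⟩
    simp only [Form.toks, List.length_cons]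
    omega

theorem exW (B : ℕ → Bool × Bool) (N : ℕ) : ∃ w : List Bool, w.length = 2 * N ∧
    ∀ (w' : List Bool) (j : ℕ), j < N → sgb (w ++ w') j = B j := by
  induction N with
  | zero => exact ⟨[], rfl, fun w' j hj => absurd hj (by omega)⟩
  | succ N ih =>
    obtain ⟨w, hw1, hw2⟩ := ih
    refine ⟨w ++ [(B N).1, (B N).2], by simp [hw1]; ring, fun w' j hj => ?_⟩
    rcases Nat.lt_succ_iff_lt_or_eq.mp hj with h | h
    · rw [List.append_assoc]
      exact hw2 _ j h
    · subst h
      have e1 : (w ++ [(B j).1, (B j).2] ++ w').getD (2 * j) false = (B j).1 := by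
        rw [List.append_assoc, List.getD_append_right _ _ _ _ (by omega), hw1]
        simp
      have e2 : (w ++ [(B j).1, (B j).2] ++ w').getD (2 * j + 1) false = (B j).2 := by
        rw [List.append_assoc, List.getD_append_right _ _ _ _ (by omega), hw1]
        simp
      unfold sgb
      rw [e1, e2]

theorem recs_atoms (w : List Bool) (φ : Form) : ∀ k : ℕ,
    (recs w φ k).map (fun r => r.2.2) = φ.atoms ∧
    ∀ r ∈ recs w φ k, r.1 = max (r.2.2.1.deg ∅) (r.2.2.2.deg ∅) := by
  induction φ with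
  | lt s t => intro k; simp [recs, Form.atoms]
  | le s t => intro k; simp [recs, Form.atoms]
  | eq s t => intro k; simp [recs, Form.atoms]
  | ge s t => intro k; simp [recs, Form.atoms]
  | gt s t => intro k; simp [recs, Form.atoms]
  | and p q ihp ihq =>
    intro k
    refine ⟨?_, fun r hr => ?_⟩
    · rw [recs, List.map_append, (ihp _).1, (ihq _).1, Form.atoms]
    · rw [recs, List.mem_append] at hr
      rcases hr with hr | hr
      · exact (ihp _).2 r hr
      · exact (ihq _).2 r hr
  | or p q ihp ihq =>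
    intro k
    refine ⟨?_, fun r hr => ?_⟩
    · rw [recs, List.map_append, (ihp _).1, (ihq _).1, Form.atoms]
    · rw [recs, List.mem_append] at hr
      rcases hr with hr | hr
      · exact (ihp _).2 r hr
      · exact (ihq _).2 r hr
  | not p ihp =>
    intro k
    refine ⟨?_, fun r hr => ?_⟩
    · rw [recs, (ihp _).1, Form.atoms]
    · rw [recs] at hr
      exact (ihp _).2 r hr

theorem st_BEV : ST_BEV := by
  refine ⟨fun w φ k x h => bev_iff w φ k x h, fun φ x => ?_, fun w φ k => recs_atoms w φ k⟩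
  obtain ⟨B, hB⟩ := exB φ 0 x
  obtain ⟨w, hw1, hw2⟩ := exW B φ.toks.length
  exact ⟨w, hw1, fun w' r hr => hB (w ++ w') (fun j _ hj => hw2 w' j (by omega)) r hr⟩

end Pool.Agent.Helper4.DCT
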